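import Pool.Agent.H.MP_7a24ab_lc.A

set_option autoImplicit false
open Set Filter Topology Metric Pool.Agent.H.MP_7a24ab_lc

namespace Pool.Agent.Results.MP_7a24ab_lc.Aleph1

def Y : Type := ℕ → Bool
noncomputable instance : MetricSpace Y := TopologicalSpace.metrizableSpaceMetric (ℕ → Bool)
instance : CompactSpace Y := inferInstanceAs (CompactSpace (ℕ → Bool))
def z0 : Y := fun _ => false
instance : Nonempty Y := ⟨z0⟩

lemma HP (P : Set Y) (h : Perfect P) (hn : P.Nonempty) :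
    ∃ f : Y → Y, range f ⊆ P ∧ Continuous f ∧ Function.Injective f := h.exists_nat_bool_injection hn

def sh (n : ℕ) (y : Y) : Y := fun i => if i < n then false else if i = n then true else y (i - (n + 1))
lemma shc (n : ℕ) : Continuous (sh n) := continuous_pi (X := ℕ → Bool) fun i => by
  unfold sh
  split_ifs
  exacts [continuous_const, continuous_const, continuous_apply _]
lemma shi (n : ℕ) : Function.Injective (sh n) := fun x y h => funext fun i => by
  simpa [sh, show ¬ i + (n + 1) < n by omega, show ¬ i + (n + 1) = n by omega] using congrFun h (i + (n + 1))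

lemma exK (a : W) : ∃ K : Set Y, IsClosed K ∧ K.Countable ∧ z0 ∈ D K a := by
  induction a using WellFoundedLT.induction with
  | ind a ih =>
  classical
  choose! K K1 K2 K3 using ih
  haveI : Nonempty W := ⟨a⟩
  obtain ⟨f, hf⟩ := countable_iff_exists_subset_range.1 (cIio a)
  let S : ℕ → Set Y := fun n => if f n.unpair.1 < a then sh n '' K (f n.unpair.1) else ∅
  refine ⟨{z0} ∪ ⋃ n, S n, closed_union isClosed_singleton (fun n => ?_) fun z hz => ?_,
    (countable_singleton _).union (countable_iUnion fun n => ?_), mem_D.2 ⟨Or.inl rfl, fun b hb => ?_⟩⟩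
  · simp only [S]
    split_ifs with h
    exacts [((K1 _ h).isCompact.image (shc n)).isClosed, isClosed_empty]
  · obtain ⟨m, hm⟩ := Function.ne_iff.1 hz
    refine ⟨m + 1, (((continuous_apply (A := fun _ => Bool) m).tendsto z).eventually (p := fun a => a ≠ false)
      ((isOpen_discrete _).mem_nhds hm)).mono fun w hw n hn k => ?_⟩
    simp only [S] at k
    split_ifs at k
    · obtain ⟨y, -, rfl⟩ := k
      exact hw (if_pos hn)
    · exact k
  · simp only [S]
    split_ifs with h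
    exacts [(K2 _ h).image _, countable_empty]
  · obtain ⟨j, rfl⟩ := hf hb
    have h1 : Tendsto (fun m => sh (Nat.pair j m) z0) atTop (𝓝 z0) :=
      (tendsto_pi_nhds (A := fun _ => Bool)).2 fun i => tendsto_const_nhds.congr'
        ((eventually_gt_atTop i).mono fun m hm => (if_pos (hm.trans_le (Nat.right_le_pair j m))).symm)
    refine accPt_iff_frequently.2 (h1.frequently (Eventually.of_forall fun m => ⟨fun e => ?_, ?_⟩).frequently)
    · simpa [sh, z0] using congrFun e (Nat.pair j m)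
    · obtain ⟨y, y1, y2⟩ := mono (graph (K' := {z0} ∪ ⋃ n, S n) (K1 _ hb) (shc (Nat.pair j m)) (shi _)
        fun x hx => Or.inr (mem_iUnion.2 ⟨Nat.pair j m, by
          simp only [S, Nat.unpair_pair, if_pos hb]; exact mem_image_of_mem _ hx⟩)) _ _ (K3 _ hb)
      exact y1.2 ▸ y2

noncomputable def e (k : ℕ) : Y := TopologicalSpace.denseSeq Y k.unpair.1
def L (A : Set ℕ) : Set Y := {x | MapClusterPt x (cofinite ⊓ 𝓟 A) e}
def C (A : Set ℕ) (f : ℕ → ℕ) : Set (Y × Y) :=
  {p | ∃ U : Ultrafilter ℕ, ↑U ≤ cofinite ⊓ 𝓟 A ∧ Tendsto e U (𝓝 p.1) ∧ Tendsto (e ∘ f) U (𝓝 p.2)}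

lemma Lc (A : Set ℕ) : IsClosed (L A) := isClosed_setOf_clusterPt

lemma exA {K : Set Y} (h : IsClosed K) (hc : K.Countable) (hn : K.Nonempty) : ∃ A, L A = K := by
  obtain ⟨x, rfl⟩ := hc.exists_eq_range hn
  choose j hj using fun m : ℕ => Metric.denseRange_iff.1 (TopologicalSpace.denseRange_denseSeq Y)
    (x m.unpair.1) _ (Nat.one_div_pos_of_nat (n := m))
  let a : ℕ → ℕ := fun m => Nat.pair (j m) m
  have ai : Function.Injective a := fun m n k => (Nat.pair_eq_pair.1 k).2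
  have hd : Tendsto (fun m => dist (x m.unpair.1) (e (a m))) cofinite (𝓝 0) := by
    rw [Nat.cofinite_eq_atTop]
    exact squeeze_zero (fun _ => dist_nonneg) (fun m => by simpa [e, a] using (hj m).le)
      tendsto_one_div_add_atTop_nhds_zero_nat
  refine ⟨range a, Subset.antisymm (fun y hy => ?_) ?_⟩
  · rw [L, ← map_comap, ai.comap_cofinite_eq] at hy
    obtain ⟨U, U1, U2⟩ := mapClusterPt_iff_ultrafilter.1 (show MapClusterPt y cofinite (e ∘ a) from hy)
    exact h.mem_of_tendsto (U2.congr_dist ((hd.mono_left U1).congr fun _ => dist_comm _ _))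
      (Eventually.of_forall fun m => mem_range_self _)
  · rintro _ ⟨n, rfl⟩
    have pi : Function.Injective (Nat.pair n) := fun m n k => (Nat.pair_eq_pair.1 k).2
    refine MapClusterPt.of_comp (φ := a ∘ Nat.pair n) (p := cofinite) (tendsto_inf.2
      ⟨(ai.comp pi).tendsto_cofinite, tendsto_principal.2 (Eventually.of_forall fun m => mem_range_self _)⟩)
      (Tendsto.mapClusterPt (tendsto_const_nhds.congr_dist ?_))
    simpa [Function.comp_def] using hd.comp pi.tendsto_cofinite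

lemma Rl_C {g : ℕ → ℕ} (hg : Function.Injective g) (h : F2 (C univ g)) (A : Set ℕ) :
    Rl (L A) (L (g '' A)) (C A g) := by
  have sub : C A g ⊆ C univ g := fun p ⟨U, h1, h2⟩ => ⟨U, h1.trans (by simp), h2⟩
  refine ⟨?_, fun p ⟨U, h1, h2, h3⟩ => ⟨mapClusterPt_iff_ultrafilter.2 ⟨U, h1, h2⟩,
    mapClusterPt_iff_ultrafilter.2 ⟨U.map g, le_inf (hg.tendsto_cofinite.mono_left (h1.trans inf_le_left))
      (le_principal_iff.2 (image_mem_map (le_principal_iff.1 (h1.trans inf_le_right)))), h3⟩⟩, fun x hx => ?_,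
    fun x => (h.1 x).subset fun y hy => sub hy, fun y => (h.2 y).subset fun x hx => sub hx⟩
  · have : C A g = {p | MapClusterPt p (cofinite ⊓ 𝓟 A) fun a => (e a, e (g a))} := by
      ext p
      simp only [C, mem_setOf_eq, mapClusterPt_iff_ultrafilter, Prod.tendsto_iff, Function.comp_def]
    rw [this]
    exact isClosed_setOf_clusterPt
  · obtain ⟨U, h1, h2⟩ := mapClusterPt_iff_ultrafilter.1 hx
    exact ⟨_, U, h1, h2, (U.map (e ∘ g)).le_nhds_lim⟩

lemma mapU {g : ℕ → ℕ} (hg : Function.Injective g) {U : Ultrafilter ℕ} (h : ↑U ≤ cofinite ⊓ 𝓟 (univ : Set ℕ)) :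
    ↑(U.map g) ≤ cofinite ⊓ 𝓟 (univ : Set ℕ) :=
  le_inf (hg.tendsto_cofinite.mono_left (h.trans inf_le_left)) (by simp)

lemma C_inv (g : Equiv.Perm ℕ) {x y : Y} (h : (x, y) ∈ C univ ⇑g⁻¹) : (y, x) ∈ C univ g := by
  obtain ⟨U, h1, h2, h3⟩ := h
  refine ⟨U.map ⇑g⁻¹, mapU g⁻¹.injective h1, h3, ?_⟩
  simpa [Tendsto, map_map, Function.comp_def] using h2

def H : Subgroup (Equiv.Perm ℕ) where
  carrier := {g | F2 (C univ g)}
  one_mem' := ⟨fun x => (finite_singleton x).subset fun _ ⟨_, _, h2, h3⟩ => tendsto_nhds_unique h3 h2,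
    fun x => (finite_singleton x).subset fun _ ⟨_, _, h2, h3⟩ => tendsto_nhds_unique h2 h3⟩
  inv_mem' h := ⟨fun x => (h.2 x).subset fun _ k => C_inv _ k, fun x => (h.1 x).subset fun _ k => C_inv _ k⟩
  mul_mem' := by
    intro g h hg hh
    have k : ∀ x z, (x, z) ∈ C univ ⇑(g * h) → ∃ y, (x, y) ∈ C univ h ∧ (y, z) ∈ C univ g :=
      fun x z ⟨U, h1, h2, h3⟩ => ⟨(U.map (e ∘ h)).lim, ⟨U, h1, h2, (U.map (e ∘ h)).le_nhds_lim⟩, U.map h,
        mapU h.injective h1,
        (U.map (e ∘ h)).le_nhds_lim, h3⟩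
    exact ⟨fun x => ((hh.1 x).biUnion fun y _ => hg.1 y).subset fun z hz =>
        (k x z hz).elim fun y hy => mem_biUnion hy.1 hy.2,
      fun z => ((hg.2 z).biUnion fun y _ => hh.2 y).subset fun x hx =>
        (k x z hx).elim fun y hy => mem_biUnion hy.2 hy.1⟩

lemma inj {A A' : Set ℕ} (hc : A.encard ≤ A'.encard) {R : Set (Y × Y)} (h : Rl (L A) (L A') R) :
    ∃ f : ℕ → ℕ, MapsTo f A A' ∧ InjOn f A ∧ C A f ⊆ R := by
  rcases A.finite_or_infinite with k | k
  · obtain ⟨f, f1, f2⟩ := k.exists_injOn_of_encard_le hc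
    refine ⟨f, f1, f2, fun p ⟨U, h1, _⟩ => absurd (le_principal_iff.1 (h1.trans inf_le_right)) ?_⟩
    exact Ultrafilter.compl_mem_iff_notMem.1 (h1.trans inf_le_left k.compl_mem_cofinite)
  haveI := k.cofinite_inf_principal_neBot
  have hn : (L A).Nonempty := exists_clusterPt_of_compactSpace _
  choose x x1 x2 using fun a => (Lc A).isCompact.exists_infDist_eq_dist hn (e a)
  choose y hy using fun a => h.2.2.1 (x a) (x1 a)
  have : ∀ a m : ℕ, ∃ b > m, b ∈ A' ∧ dist (e b) (y a) < 1 / (a + 1) := fun a m => by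
    have := mapClusterPt_iff_frequently.1 (h.2.1 _ (hy a)).2 _ (ball_mem_nhds _ (Nat.one_div_pos_of_nat (n := a)))
    rw [frequently_inf_principal, Nat.cofinite_eq_atTop] at this
    obtain ⟨b, b1, b2⟩ := frequently_atTop'.1 this m
    exact ⟨b, b1, b2⟩
  choose b b1 b2 b3 using this
  let f : ℕ → ℕ := fun n => Nat.rec (b 0 0) (fun n m => b (n + 1) m) n
  have f1 : ∀ n, ∃ m, f n = b n m := fun n => by cases n <;> exact ⟨_, rfl⟩
  refine ⟨f, fun n _ => (f1 n).elim fun m hm => hm ▸ b2 n m,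
    (strictMono_nat_of_lt_succ fun n => b1 _ _).injective.injOn, fun p ⟨U, h1, h2, h3⟩ => ?_⟩
  have hp : p.1 ∈ L A := mapClusterPt_iff_ultrafilter.2 ⟨U, h1, h2⟩
  refine h.1.mem_of_tendsto (Tendsto.prodMk_nhds (h2.congr_dist ?_) (h3.congr_dist ?_))
    (Eventually.of_forall hy)
  · exact squeeze_zero (fun _ => dist_nonneg) (fun a => (x2 a).ge.trans (infDist_le_dist_of_mem hp))
      (tendsto_iff_dist_tendsto_zero.1 h2)
  · refine squeeze_zero (fun _ => dist_nonneg) (fun a => (f1 a).elim fun m hm => ?_)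
      (tendsto_one_div_add_atTop_nhds_zero_nat.mono_left (h1.trans (inf_le_left.trans Nat.cofinite_eq_atTop.le)))
    rw [Function.comp, hm]
    exact (b3 a m).le

def N (A : Set ℕ) : Set W := {a | (D (L A) a).Nonempty}

lemma inj2 {A B : Set ℕ} (h1 : A.encard = B.encard) (h2 : Aᶜ.encard = Bᶜ.encard) (h3 : N A = N B)
    (h4 : N Aᶜ = N Bᶜ) : ∃ f : ℕ → ℕ, Function.Injective f ∧ (∀ a, f a ∈ B ↔ a ∈ A) ∧ F2 (C univ f) := by
  classical
  obtain ⟨R, hR⟩ := le_of HP (Lc A) (Lc B) fun a ha => h3.le ha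
  obtain ⟨S, hS⟩ := le_of HP (Lc Aᶜ) (Lc Bᶜ) fun a ha => h4.le ha
  obtain ⟨f, f1, f2, f3⟩ := inj h1.le hR
  obtain ⟨g, g1, g2, g3⟩ := inj h2.le hS
  have k : ∀ a, A.piecewise f g a ∈ B ↔ a ∈ A := fun a => by
    by_cases h : a ∈ A
    · simp [h, f1 h]
    · simpa [h] using g1 h
  have sub : C univ (A.piecewise f g) ⊆ R ∪ S := fun p ⟨U, u1, u2, u3⟩ => (U.mem_or_compl_mem A).imp
    (fun h => f3 ⟨U, le_inf (u1.trans inf_le_left) (le_principal_iff.2 h), u2,
      u3.congr' (mem_of_superset h fun a ha => by simp [ha])⟩)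
    fun h => g3 ⟨U, le_inf (u1.trans inf_le_left) (le_principal_iff.2 h), u2,
      u3.congr' (mem_of_superset h fun a ha => by simp [show a ∉ A from ha])⟩
  refine ⟨A.piecewise f g, fun a b h => ?_, k, fun x => ((hR.2.2.2.1 x).union (hS.2.2.2.1 x)).subset
    fun y hy => sub hy, fun x => ((hR.2.2.2.2 x).union (hS.2.2.2.2 x)).subset fun y hy => sub hy⟩
  have e : a ∈ A ↔ b ∈ A := by rw [← k, ← k, h]
  by_cases ha : a ∈ A
  · exact f2 ha (e.1 ha) (by simpa [ha, e.1 ha] using h)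
  · exact g2 ha (mt e.2 ha) (by simpa [ha, mt e.2 ha] using h)

lemma rel {A B : Set ℕ} (h1 : A.encard = B.encard) (h2 : Aᶜ.encard = Bᶜ.encard) (h3 : N A = N B)
    (h4 : N Aᶜ = N Bᶜ) : ∃ g ∈ H, g '' A = B := by
  obtain ⟨f, f1, f2, f3⟩ := inj2 h1 h2 h3 h4
  obtain ⟨f', g1, g2, g3⟩ := inj2 h1.symm h2.symm h3.symm h4.symm
  obtain ⟨g, gb, hg⟩ := Function.Embedding.schroeder_bernstein_of_rel f1 g1 (fun a b => f a = b ∨ f' b = a)
    (fun _ => Or.inl rfl) fun _ => Or.inr rfl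
  have sub : ∀ x y, (x, y) ∈ C univ g → (x, y) ∈ C univ f ∨ (y, x) ∈ C univ f' := fun x y ⟨U, u1, u2, u3⟩ =>
    (Ultrafilter.eventually_or.1 (Eventually.of_forall (f := U) hg)).imp
      (fun h => ⟨U, u1, u2, u3.congr' (h.mono fun a ha => congrArg e ha.symm)⟩)
      fun h => ⟨U.map g, mapU gb.1 u1, u3,
        tendsto_map'_iff.2 (u2.congr' (h.mono fun a ha => congrArg e ha.symm))⟩
  refine ⟨Equiv.ofBijective g gb, ⟨fun x => ((f3.1 x).union (g3.2 x)).subset (sub x),
    fun y => ((f3.2 y).union (g3.1 y)).subset fun x => sub x y⟩, ?_⟩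
  ext b
  obtain ⟨a, rfl⟩ := gb.2 b
  refine (gb.1.mem_set_image).trans ?_
  rcases hg a with h | h
  · rw [← h, f2]
  · rw [← g2, h]

lemma low (A : Set ℕ) : ∃ o : Option W, N A = o.elim univ Iio :=
  (IsLowerSet.eq_univ_or_Iio (s := N A) fun _ _ h k => k.mono (D_anti _ h)).elim (fun h => ⟨none, h⟩)
    fun ⟨a, h⟩ => ⟨some a, h⟩

theorem result : ∃ H : Subgroup (Equiv.Perm ℕ),
    Cardinal.mk (Quot fun A B : Set ℕ => ∃ g ∈ H, g '' A = B) = Cardinal.aleph 1 ∧
    (Cardinal.aleph 1 < Cardinal.continuum.{0} →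
      Cardinal.aleph0 < Cardinal.mk (Quot fun A B : Set ℕ => ∃ g ∈ H, g '' A = B) ∧
      Cardinal.mk (Quot fun A B : Set ℕ => ∃ g ∈ H, g '' A = B) < Cardinal.continuum) := by
  suffices h : Cardinal.mk (Quot fun A B : Set ℕ => ∃ g ∈ H, g '' A = B) = Cardinal.aleph 1 from
    ⟨H, h, fun k => h ▸ ⟨Cardinal.aleph0_lt_aleph_one, k⟩⟩
  refine le_antisymm ?_ ?_
  · choose o ho using low
    refine (Cardinal.mk_le_of_injective (f := fun q : Quot _ =>
      ((q.out.encard, q.outᶜ.encard), o q.out, o q.outᶜ)) fun p q h => ?_).trans ?_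
    · simp only [Prod.mk.injEq] at h
      rw [← p.out_eq, ← q.out_eq]
      exact Quot.sound (rel h.1.1 h.1.2 (by rw [ho, ho, h.2.1]) (by rw [ho, ho, h.2.2]))
    · have h1 : Cardinal.mk (Option W) = Cardinal.aleph 1 := by
        rw [Cardinal.mk_option, cW, Cardinal.add_one_eq (Cardinal.aleph0_le_aleph 1)]
      rw [Cardinal.mk_prod, Cardinal.mk_prod (Option W), h1, Cardinal.mk_eq_aleph0]
      simp
  · rw [← Cardinal.succ_aleph0, Order.succ_le_iff, ← not_le, Cardinal.mk_le_aleph0_iff]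
    intro hc
    let n : (Quot fun A B : Set ℕ => ∃ g ∈ H, g '' A = B) → Set W := Quot.lift N (by
      have k : ∀ A, ∀ g ∈ H, N A ⊆ N (g '' A) := fun A g hg a ⟨x, hx⟩ =>
        (mono (Rl_C g.injective hg A) a x hx).imp fun _ h => h.2
      rintro A _ ⟨g, hg, rfl⟩
      refine (k A g hg).antisymm ((k _ _ (H.inv_mem hg)).trans ?_)
      simp [image_image])
    obtain ⟨a, ha⟩ := bdd (countable_iUnion fun q => show {b | n q = Iio b}.Countable from
      (Subsingleton.finite fun b h c k => Iio_injective (h.symm.trans k)).countable)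
    obtain ⟨K, K1, K2, K3⟩ := exK a
    obtain ⟨A, rfl⟩ := exA K1 K2 ⟨_, (mem_D.1 K3).1⟩
    rcases low A with ⟨_ | b, h⟩
    · obtain ⟨c, hc⟩ := perf K1
      obtain ⟨f, f1, -, f2⟩ := hc.exists_nat_bool_injection (h.ge (mem_univ c))
      have := (K2.mono (f1.trans fun x hx => (mem_D.1 hx).1)).preimage_of_injOn (f := f) f2.injOn
      rw [preimage_range, countable_univ_iff, ← Cardinal.mk_le_aleph0_iff] at this
      exact Cardinal.aleph0_lt_continuum.not_ge (by simpa using this)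
    · exact (ha b (mem_iUnion.2 ⟨Quot.mk _ A, h⟩)).not_gt (h.le ⟨_, K3⟩)

end Pool.Agent.Results.MP_7a24ab_lc.Aleph1
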